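import Pool.Agent.N784.AD.Geo2

/-! # The number of the ideals of bounded norm in one ray class (helper787, for helper784's project
CZ) -/

set_option autoImplicit false
set_option linter.unusedSectionVars false

open NumberField Module

namespace Pool.Agent.N787.CZ

open Pool.Agent.Y773 (TPos)
open Pool.Agent.Y767 (Mq Mq_cop Mq_ne_bot Mq_cancel isUnit_mk Cls cls cls_eq)
open Pool.Agent.Y773.IQ (ne_zero_of_cop absNorm_pos')
open Pool.Agent.N784.AD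

variable (K : Type) [Field K] [NumberField K]

open Classical in
/-- **the number of the ideals of bounded norm in one ray class** -/
theorem cnt : ∃ C : ℝ, 1 ≤ C ∧
    ∀ (𝔮 : Ideal (𝓞 K)) (_ : 𝔮 ≠ ⊥) (htop : 𝔮 ≠ ⊤) (S : Finset (Mq 𝔮)) (c : Cls (pi1 htop)) (X : ℝ),
    0 ≤ X → (∀ x ∈ S, cls (pi1 htop) x = c ∧ (Ideal.absNorm (x : Ideal (𝓞 K)) : ℝ) ≤ X) →
    (S.card : ℝ) ≤ C * Un 𝔮 * (1 + X / (Ideal.absNorm 𝔮 : ℝ)) := by
  obtain ⟨C1, hC1, hbal⟩ := balanced K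
  obtain ⟨C3, hC3, hbox⟩ := box_count K
  obtain ⟨𝔠, M, hM, h𝔠0, h𝔠M, h𝔠⟩ := exists_cc K
  obtain ⟨d, hd⟩ : ∃ d : ℕ, d = finrank ℚ K := ⟨_, rfl⟩
  have hd0 : 0 < d := by rw [hd]; exact finrank_pos
  have hdr : (0 : ℝ) < d := by exact_mod_cast hd0
  rw [← hd] at hbal hbox
  obtain ⟨G, hG⟩ : ∃ G : ℝ, G = (2 * C1) ^ d * M := ⟨_, rfl⟩
  have hG0 : 0 ≤ G := by rw [hG]; positivity
  refine ⟨C3 * (1 + G), one_le_mul_of_one_le_of_one_le hC3 (by linarith), ?_⟩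
  intro 𝔮 hbot htop S c X hX hS
  have hcan := Mq_cancel htop
  have hNq : (1 : ℝ) ≤ (Ideal.absNorm 𝔮 : ℝ) := by exact_mod_cast absNorm_pos' hbot
  rcases S.eq_empty_or_nonempty with hS0 | ⟨x₀, hx₀⟩
  · rw [hS0, Finset.card_empty, Nat.cast_zero]
    positivity
  obtain ⟨A, hA⟩ : ∃ A : ℝ, A = C1 * (X * M) ^ (1 / (d : ℝ)) := ⟨_, rfl⟩
  have hA0 : 0 ≤ A := by rw [hA]; positivity
  have hroot : ∀ z : ℝ, 0 ≤ z → (z ^ (1 / (d : ℝ))) ^ d = z := by
    intro z hz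
    rw [← Real.rpow_natCast, ← Real.rpow_mul hz, one_div_mul_cancel hdr.ne', Real.rpow_one]
  have hAd : A ^ d = C1 ^ d * (X * M) := by rw [hA, mul_pow, hroot _ (by positivity)]
  obtain ⟨U, hU⟩ : ∃ U : Set (𝓞 K ⧸ 𝔮), U =
    Set.range (fun u : (𝓞 K)ˣ => Ideal.Quotient.mk 𝔮 (u : 𝓞 K)) := ⟨_, rfl⟩
  have hUf : U.Finite := by rw [hU]; exact finite_Un hbot
  obtain ⟨C, α, hα0, hα⟩ := h𝔠 _ (Mq_ne_bot htop x₀)
  -- the data
  have hdata : ∀ x : Mq 𝔮, ∃ (β : 𝓞 K) (r : 𝓞 K ⧸ 𝔮), x ∈ S →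
      r ∈ U ∧ Ideal.span {β} = (x : Ideal (𝓞 K)) * 𝔠 C ∧ Bd β A ∧
      Ideal.Quotient.mk 𝔮 β = r * Ideal.Quotient.mk 𝔮 α := by
    intro x
    by_cases hx : x ∈ S
    swap
    · exact ⟨0, 0, fun h => absurd h hx⟩
    have m4 : cls (pi1 htop) x₀ = cls (pi1 htop) x := (hS _ hx₀).1.trans (hS _ hx).1.symm
    obtain ⟨a, b, hab⟩ := cls_eq m4
    have hab' := congrArg Subtype.val hab
    rw [Submonoid.coe_mul, Submonoid.coe_mul, pi1_coe, pi1_coe] at hab'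
    obtain ⟨β₀, hβ, hαβ⟩ := pair_data htop (h𝔠0 C) (x := 1) hα (T1_one a) (T1_one b) hab'
    have hβ0 : β₀ ≠ 0 := by
      rintro rfl
      rw [Ideal.span_singleton_eq_bot.mpr rfl] at hβ
      exact mul_ne_zero (Mq_ne_bot htop x) (h𝔠0 C) hβ.symm
    obtain ⟨v, hv⟩ := hbal β₀ hβ0
    have hvb : Ideal.span {(v : 𝓞 K) * β₀} = (x : Ideal (𝓞 K)) * 𝔠 C := by
      rw [← hβ, Ideal.span_singleton_mul_left_unit v.isUnit]
    refine ⟨(v : 𝓞 K) * β₀, Ideal.Quotient.mk 𝔮 (v : 𝓞 K), fun _ => ⟨?_, hvb, ?_, ?_⟩⟩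
    · rw [hU]; exact ⟨v, rfl⟩
    · refine hv.mono ?_
      rw [hA]
      refine mul_le_mul_of_nonneg_left (Real.rpow_le_rpow (Nat.cast_nonneg _) ?_ (by positivity))
        (by linarith)
      rw [absNorm_gen hβ]
      exact mul_le_mul (hS _ hx).2 (h𝔠M C) (Nat.cast_nonneg _) (by positivity)
    · have e1 : Ideal.Quotient.mk 𝔮 (a : 𝓞 K) * Ideal.Quotient.mk 𝔮 α =
          Ideal.Quotient.mk 𝔮 (b : 𝓞 K) * Ideal.Quotient.mk 𝔮 β₀ := by
        rw [← map_mul, ← map_mul, hαβ]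
      have e2 := (Ideal.Quotient.eq (I := 𝔮)).mpr (T1_one a)
      have e3 := (Ideal.Quotient.eq (I := 𝔮)).mpr (T1_one b)
      rw [e2, e3, map_one, one_mul, one_mul] at e1
      rw [e1, map_mul]
  choose ββ rr hdat using hdata
  -- the fibres
  have h1 := Finset.card_le_mul_card_image (f := rr) S
    ⌊C3 * (1 + G) * (1 + X / (Ideal.absNorm 𝔮 : ℝ))⌋₊ (by
      intro key hkey
      obtain ⟨p0, hp0, hp0k⟩ := Finset.mem_image.mp hkey
      apply Nat.le_floor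
      obtain ⟨Q, hQ⟩ : ∃ Q : Finset (Mq 𝔮), Q = S.filter (fun p => rr p = key) :=
        ⟨_, rfl⟩
      rw [← hQ]
      have hQm : ∀ p ∈ Q, p ∈ S ∧ rr p = rr p0 := by
        intro p hp
        rw [hQ, Finset.mem_filter] at hp
        exact ⟨hp.1, hp.2.trans hp0k.symm⟩
      have hinj : Set.InjOn (fun p => ββ p - ββ p0) (Q : Set (Mq 𝔮)) := by
        intro p hp p' hp' he
        obtain ⟨l1, l3⟩ := hQm p hp
        obtain ⟨l1', l3'⟩ := hQm p' hp'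
        obtain ⟨-, u5, -⟩ := hdat p l1
        obtain ⟨-, u5', -⟩ := hdat p' l1'
        have e1 : ββ p = ββ p' := by
          have : ββ p - ββ p0 = ββ p' - ββ p0 := he
          linear_combination this
        have e3 : (p : Ideal (𝓞 K)) = p' := by
          apply mul_right_cancel₀ (b := 𝔠 C) (h𝔠0 _)
          rw [← u5, ← u5', e1]
        exact Subtype.ext e3
      have h3 := hbox 𝔮 hbot (A + A) (by positivity) (Q.image (fun p => ββ p - ββ p0)) (by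
        intro x hx
        obtain ⟨p, hp, rfl⟩ := Finset.mem_image.mp hx
        obtain ⟨l1, l3⟩ := hQm p hp
        obtain ⟨-, -, u7, u8⟩ := hdat p l1
        obtain ⟨-, -, v7, v8⟩ := hdat p0 hp0
        refine ⟨?_, u7.sub v7⟩
        rw [← Ideal.Quotient.eq_zero_iff_mem, map_sub, u8, v8, l3]
        ring)
      rw [Finset.card_image_of_injOn hinj] at h3
      refine h3.trans ?_
      rw [mul_assoc C3]
      refine mul_le_mul_of_nonneg_left ?_ (by linarith)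
      obtain ⟨t, ht⟩ : ∃ t : ℝ, t = X / (Ideal.absNorm 𝔮 : ℝ) := ⟨_, rfl⟩
      have ht0 : 0 ≤ t := by rw [ht]; positivity
      have h6 : (A + A) ^ d = G * X := by
        rw [← two_mul, mul_pow, hAd, hG, mul_pow]
        ring
      rw [h6, mul_div_assoc, ← ht]
      nlinarith)
  have h2 : (S.image rr).card ≤ Un 𝔮 := by
    have h3 : S.image rr ⊆ hUf.toFinset := by
      intro x hx
      obtain ⟨p, hp, rfl⟩ := Finset.mem_image.mp hx
      rw [Set.Finite.mem_toFinset]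
      exact (hdat p hp).1
    refine (Finset.card_le_card h3).trans ?_
    refine le_of_eq ?_
    unfold Un
    rw [← Set.ncard_eq_toFinset_card _ hUf, hU]
  have h3 : (S.card : ℝ) ≤ (C3 * (1 + G) * (1 + X / (Ideal.absNorm 𝔮 : ℝ))) * Un 𝔮 := by
    have h4 : (S.card : ℝ) ≤ (⌊C3 * (1 + G) * (1 + X / (Ideal.absNorm 𝔮 : ℝ))⌋₊ : ℝ) *
        ((S.image rr).card : ℝ) := by exact_mod_cast h1
    refine h4.trans (mul_le_mul (Nat.floor_le (by positivity)) ?_ (Nat.cast_nonneg _)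
      (by positivity))
    exact_mod_cast h2
  refine h3.trans (le_of_eq ?_)
  ring

end Pool.Agent.N787.CZ
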