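import Pool.Agent.N784.CZ.Stm2
import Pool.Agent.N787.CZ.CntA

/-! # StCnt (helper787, for helper784's project CZ) -/

set_option autoImplicit false

namespace Pool.Agent.N787.CZ

/-- E3 -/
theorem t_cnt : Pool.Agent.N784.CZ.StCnt := fun K _ _ => cnt K

end Pool.Agent.N787.CZ
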